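import Mathlib

/-!
# Prescribed lim inf of closed complexity for pure morphic words (MP_c8d5ab_co, Q1, full answer)

For every `k` there is an aperiodic pure morphic word whose closed complexity has lim inf equal
to `k`.
-/

namespace Pool.Agent.Results.MP_c8d5ab_co.LiminfClosed

/-- The factor of length `n` of the infinite word `x` at position `i`. -/
def factor {A : Type*} (x : ℕ → A) (i n : ℕ) : List A := (List.range n).map (fun j => x (i + j))

/-- The set of the positions at which the word `u` occurs in the word `w`. -/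
def occurrences {A : Type*} (u w : List A) : Set ℕ := {p | p ≤ w.length ∧ u <+: w.drop p}

/-- A word `w` is closed if `|w| ≤ 1`, or if some `v ≠ w` occurs in `w` exactly twice, once as an
initial segment and once as a final segment. -/
def Closed {A : Type*} (w : List A) : Prop :=
  w.length ≤ 1 ∨ ∃ v : List A, v ≠ w ∧ v <+: w ∧ v <:+ w ∧ (occurrences v w).encard = 2

/-- The closed complexity: the number of distinct closed factors of length `n` of `x`. -/
noncomputable def cl {A : Type*} (x : ℕ → A) (n : ℕ) : ℕ∞ :=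
  {w : List A | (∃ i, w = factor x i n) ∧ Closed w}.encard

/-- `x` is aperiodic: it is not ultimately periodic. -/
def Aperiodic {A : Type*} (x : ℕ → A) : Prop :=
  ¬ ∃ N p : ℕ, 0 < p ∧ ∀ n, N ≤ n → x (n + p) = x n

/-- `x` is pure morphic: there are a morphism, given by the images `φ b` of the letters `b`, and
a letter `a` such that `φ a` begins with `a`, the lengths of the iterates `φ^m(a)` tend to
infinity, and all these iterates are initial segments of `x`. -/
def PureMorphic {A : Type*} (x : ℕ → A) : Prop :=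
  ∃ (φ : A → List A) (a : A), (∃ t, φ a = a :: t) ∧
    Filter.Tendsto (fun m => ((fun w : List A => w.flatMap φ)^[m] [a]).length)
      Filter.atTop Filter.atTop ∧
    ∀ m, (fun w : List A => w.flatMap φ)^[m] [a] =
      factor x 0 ((fun w : List A => w.flatMap φ)^[m] [a]).length

/-! ### Generalities -/

theorem factor_length {A : Type*} (x : ℕ → A) (i n : ℕ) : (factor x i n).length = n := by
  simp [factor]

theorem factor_getElem? {A : Type*} (x : ℕ → A) (i n j : ℕ) (hj : j < n) :
    (factor x i n)[j]? = some (x (i + j)) := by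
  unfold factor
  rw [List.getElem?_map, List.getElem?_range hj]
  rfl

theorem factor_add {A : Type*} (w : ℕ → A) (i a b : ℕ) :
    factor w i (a + b) = factor w i a ++ factor w (i + a) b := by
  unfold factor
  rw [List.range_add, List.map_append, List.map_map]
  congr 1
  apply List.map_congr_left
  intro j _
  simp only [Function.comp]
  rw [Nat.add_assoc]

theorem isPrefix_iff {A : Type*} (u v : List A) :
    u <+: v ↔ u.length ≤ v.length ∧ ∀ j, j < u.length → u[j]? = v[j]? := by
  constructor
  · intro h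
    refine ⟨h.length_le, fun j hj => ?_⟩
    obtain ⟨t, rfl⟩ := h
    rw [List.getElem?_append_left hj]
  · rintro ⟨h1, h2⟩
    rw [List.prefix_iff_eq_take]
    apply List.ext_getElem?
    intro j
    by_cases hj : j < u.length
    · rw [List.getElem?_take_of_lt hj]
      exact h2 j hj
    · rw [List.getElem?_eq_none (by omega), List.getElem?_eq_none (by rw [List.length_take]; omega)]

/-- What closedness of a factor of length at least two gives. -/
theorem closed_factor {A : Type*} {x : ℕ → A} {i n : ℕ} (hn : 2 ≤ n)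
    (h : Closed (factor x i n)) :
    ∃ k, k < n ∧ (∀ j, j < k → x (i + j) = x (i + (n - k) + j)) ∧
      ∀ s, 0 < s → s < n - k → ∃ j, j < k ∧ x (i + s + j) ≠ x (i + j) := by
  rcases h with h | ⟨u, hne, hp, hs, hocc⟩
  · rw [factor_length] at h
    omega
  · have hlen : u.length ≤ n := by
      have := hp.length_le
      rwa [factor_length] at this
    have hlt : u.length < n := by
      rcases Nat.lt_or_ge u.length n with h1 | h1
      · exact h1
      · exact absurd (hp.eq_of_length (by rw [factor_length]; omega)) hne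
    have hu : ∀ j, j < u.length → u[j]? = some (x (i + j)) := by
      intro j hj
      rw [((isPrefix_iff _ _).1 hp).2 j hj, factor_getElem? x i n j (by omega)]
    have hdrop : ∀ s j, s + j < n → ((factor x i n).drop s)[j]? = some (x (i + s + j)) := by
      intro s j hsj
      rw [List.getElem?_drop, factor_getElem? x i n _ hsj, ← Nat.add_assoc]
    have hsuf : u <+: (factor x i n).drop (n - u.length) := by
      have h1 := List.suffix_iff_eq_drop.mp hs
      rw [factor_length] at h1
      rw [← h1]
    refine ⟨u.length, hlt, fun j hj => ?_, fun s hs0 hsn => ?_⟩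
    · have h1 := ((isPrefix_iff _ _).1 hsuf).2 j hj
      rw [hu j hj, hdrop _ _ (by omega)] at h1
      exact Option.some.inj h1
    · by_contra hcon
      have hcon' : ∀ j, j < u.length → x (i + s + j) = x (i + j) := by
        intro j hj
        by_contra h1
        exact hcon ⟨j, hj, h1⟩
      have m0 : 0 ∈ occurrences u (factor x i n) := ⟨by omega, by simpa using hp⟩
      have m1 : n - u.length ∈ occurrences u (factor x i n) :=
        ⟨by rw [factor_length]; omega, hsuf⟩
      have m2 : s ∈ occurrences u (factor x i n) := by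
        refine ⟨by rw [factor_length]; omega, ?_⟩
        rw [isPrefix_iff]
        refine ⟨by rw [List.length_drop, factor_length]; omega, fun j hj => ?_⟩
        rw [hu j hj, hdrop _ _ (by omega), hcon' j hj]
      obtain ⟨y, z, _, hyz⟩ := Set.encard_eq_two.mp hocc
      rw [hyz] at m0 m1 m2
      simp only [Set.mem_insert_iff, Set.mem_singleton_iff] at m0 m1 m2
      omega

theorem closed_replicate {A : Type*} (b : A) (n : ℕ) : Closed (List.replicate n b) := by
  rcases Nat.lt_or_ge n 2 with hn | hn
  · left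
    rw [List.length_replicate]
    omega
  · right
    obtain ⟨m, rfl⟩ : ∃ m, n = m + 2 := ⟨n - 2, by omega⟩
    refine ⟨List.replicate (m + 1) b, ?_, ⟨[b], ?_⟩, ⟨[b], ?_⟩, ?_⟩
    · intro h
      have := congrArg List.length h
      simp at this
    · exact (List.replicate_succ' (n := m + 1) (a := b)).symm
    · rfl
    · have : occurrences (List.replicate (m + 1) b) (List.replicate (m + 2) b) = {0, 1} := by
        ext p
        unfold occurrences
        simp only [Set.mem_ofPred_eq, Set.mem_insert_iff, Set.mem_singleton_iff,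
          List.length_replicate, List.drop_replicate]
        constructor
        · rintro ⟨h1, h2⟩
          have := h2.length_le
          simp only [List.length_replicate] at this
          omega
        · rintro (rfl | rfl)
          · refine ⟨by omega, ⟨[b], ?_⟩⟩
            exact (List.replicate_succ' (n := m + 1) (a := b)).symm
          · refine ⟨by omega, ?_⟩
            rw [show m + 2 - 1 = m + 1 by omega]
      rw [this]
      exact Set.encard_pair (by norm_num)

/-- Fixed points of uniform morphisms are pure morphic. -/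
theorem pureMorphic_of_uniform {A : Type*} (x : ℕ → A) (φ : A → List A) (M : ℕ) (hM : 2 ≤ M)
    (h : ∀ q, φ (x q) = factor x (M * q) M) : PureMorphic x := by
  have key : ∀ N, (factor x 0 N).flatMap φ = factor x 0 (M * N) := by
    intro N
    induction N with
    | zero => simp [factor]
    | succ N ih =>
      rw [factor_add, List.flatMap_append, ih, Nat.mul_add, factor_add]
      congr 1
      have e : factor x (0 + N) 1 = [x N] := by simp [factor]
      rw [e, List.flatMap_cons, List.flatMap_nil, List.append_nil, h, Nat.zero_add, Nat.mul_one]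
  have it : ∀ m, (fun w : List A => w.flatMap φ)^[m] [x 0] = factor x 0 (M ^ m) := by
    intro m
    induction m with
    | zero => simp [factor]
    | succ m ih =>
      rw [Function.iterate_succ_apply', ih]
      show (factor x 0 (M ^ m)).flatMap φ = _
      rw [key, pow_succ, mul_comm]
  refine ⟨φ, x 0, ?_, ?_, ?_⟩
  · have h0 := h 0
    rw [Nat.mul_zero, show M = 1 + (M - 1) by omega, factor_add] at h0
    refine ⟨factor x (0 + 1) (M - 1), ?_⟩
    rw [h0]
    simp [factor]
  · have : (fun m => ((fun w : List A => w.flatMap φ)^[m] [x 0]).length) = fun m => M ^ m := by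
      funext m
      rw [it, factor_length]
    rw [this]
    exact tendsto_pow_atTop_atTop_of_one_lt (by omega)
  · intro m
    rw [it, factor_length]

/-! ### The case `k = 0`: the four-letter paperfolding word -/

/-- The four-letter paperfolding word. -/
def y (n : ℕ) : ℕ :=
  if n = 0 then 0 else if n % 2 = 0 then (n / 2) % 2 else 2 + y (n / 2) % 2
termination_by n
decreasing_by omega

theorem y_even (n : ℕ) : y (2 * n) = n % 2 := by
  rw [y]
  rcases Nat.eq_zero_or_pos n with h | h
  · subst h
    simp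
  · rw [if_neg (by omega), if_pos (by omega), show 2 * n / 2 = n by omega]

theorem y_odd (n : ℕ) : y (2 * n + 1) = 2 + y n % 2 := by
  rw [y, if_neg (by omega), if_neg (by omega), show (2 * n + 1) / 2 = n by omega]

theorem y_div (n : ℕ) : y n / 2 = n % 2 := by
  rcases Nat.even_or_odd' n with ⟨m, hm | hm⟩
  · rw [hm, y_even]
    omega
  · rw [hm, y_odd]
    omega

theorem y_lt (n : ℕ) : y n < 4 := by
  have := y_div n
  omega

theorem y_eq_iff (i j : ℕ) : y i = y j ↔ i % 2 = j % 2 ∧ y i % 2 = y j % 2 := by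
  have h1 := y_div i
  have h2 := y_div j
  omega

/-- `v = y[p, p+m)` has consecutive occurrences at distance `d`. -/
def Ret (m d : ℕ) : Prop := ∃ p, (∀ t, t < m → y (p + t) = y (p + d + t)) ∧
  ∀ s, 0 < s → s < d → ∃ t, t < m ∧ y (p + s + t) ≠ y (p + t)

theorem ret_even {m d : ℕ} (hm : 0 < m) (h : Ret m d) : d % 2 = 0 := by
  obtain ⟨p, h1, _⟩ := h
  have := ((y_eq_iff _ _).1 (h1 0 hm)).1
  omega

theorem ret_half {m d : ℕ} (hm : 0 < m) (h : Ret (2 * m) (2 * d)) : Ret m d := by
  obtain ⟨p, h1, h2⟩ := h
  rcases Nat.even_or_odd' p with ⟨r, hr | hr⟩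
  · refine ⟨r, ?_, ?_⟩
    · intro t ht
      have e1 := h1 (2 * t) (by omega)
      have e2 := h1 (2 * t + 1) (by omega)
      rw [hr, show 2 * r + 2 * t = 2 * (r + t) by ring,
        show 2 * r + 2 * d + 2 * t = 2 * (r + d + t) by ring, y_even, y_even] at e1
      rw [hr, show 2 * r + (2 * t + 1) = 2 * (r + t) + 1 by ring,
        show 2 * r + 2 * d + (2 * t + 1) = 2 * (r + d + t) + 1 by ring, y_odd, y_odd] at e2
      rw [y_eq_iff]
      omega
    · intro s hs hsd
      by_contra hcon
      push Not at hcon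
      obtain ⟨t, ht, hne⟩ := h2 (2 * s) (by omega) (by omega)
      apply hne
      rcases Nat.even_or_odd' t with ⟨a, ha | ha⟩
      · have e := (y_eq_iff _ _).1 (hcon a (by omega))
        rw [hr, ha, show 2 * r + 2 * s + 2 * a = 2 * (r + s + a) by ring,
          show 2 * r + 2 * a = 2 * (r + a) by ring, y_even, y_even]
        exact e.1
      · have e := (y_eq_iff _ _).1 (hcon a (by omega))
        rw [hr, ha, show 2 * r + 2 * s + (2 * a + 1) = 2 * (r + s + a) + 1 by ring,
          show 2 * r + (2 * a + 1) = 2 * (r + a) + 1 by ring, y_odd, y_odd, e.2]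
  · refine ⟨r, ?_, ?_⟩
    · intro t ht
      have e1 := h1 1 (by omega)
      have e2 := h1 (2 * t) (by omega)
      rw [hr, show 2 * r + 1 + 1 = 2 * (r + 1) by ring,
        show 2 * r + 1 + 2 * d + 1 = 2 * (r + d + 1) by ring, y_even, y_even] at e1
      rw [hr, show 2 * r + 1 + 2 * t = 2 * (r + t) + 1 by ring,
        show 2 * r + 1 + 2 * d + 2 * t = 2 * (r + d + t) + 1 by ring, y_odd, y_odd] at e2
      rw [y_eq_iff]
      omega
    · intro s hs hsd
      by_contra hcon
      push Not at hcon
      obtain ⟨t, ht, hne⟩ := h2 (2 * s) (by omega) (by omega)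
      have e0 := (y_eq_iff _ _).1 (hcon 0 hm)
      apply hne
      rcases Nat.even_or_odd' t with ⟨a, ha | ha⟩
      · have e := (y_eq_iff _ _).1 (hcon a (by omega))
        rw [hr, ha, show 2 * r + 1 + 2 * s + 2 * a = 2 * (r + s + a) + 1 by ring,
          show 2 * r + 1 + 2 * a = 2 * (r + a) + 1 by ring, y_odd, y_odd, e.2]
      · rw [hr, ha, show 2 * r + 1 + 2 * s + (2 * a + 1) = 2 * (r + s + a + 1) by ring,
          show 2 * r + 1 + (2 * a + 1) = 2 * (r + a + 1) by ring, y_even, y_even]
        omega

theorem no_ret (J : ℕ) : ∀ m d, 0 < m → 0 < d → m + d = 2 ^ J → ¬ Ret m d := by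
  induction J with
  | zero =>
    intro m d hm hd h
    rw [pow_zero] at h
    omega
  | succ J ih =>
    intro m d hm hd h hret
    have h1 := ret_even hm hret
    rw [pow_succ] at h
    obtain ⟨a, rfl⟩ : ∃ a, m = 2 * a := ⟨m / 2, by omega⟩
    obtain ⟨b, rfl⟩ : ∃ b, d = 2 * b := ⟨d / 2, by omega⟩
    exact ih a b (by omega) (by omega) (by omega) (ret_half (by omega) hret)

/-- The word `y` over a four-letter alphabet. -/
def Y (n : ℕ) : Fin 4 := ⟨y n, y_lt n⟩

theorem Y_eq_iff (i j : ℕ) : Y i = Y j ↔ y i = y j := by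
  unfold Y
  exact Fin.mk.injEq _ _ _ _ ▸ Iff.rfl

theorem Y_pureMorphic : PureMorphic Y := by
  apply pureMorphic_of_uniform Y
    (fun a => [⟨a.1 / 2, by omega⟩, ⟨2 + a.1 % 2, by omega⟩]) 2 le_rfl
  intro q
  have e : factor Y (2 * q) 2 = [Y (2 * q), Y (2 * q + 1)] := by
    simp [factor, List.range_succ]
  rw [e]
  unfold Y
  simp only [List.cons.injEq, Fin.mk.injEq, and_true]
  rw [y_even, y_odd, y_div]
  exact ⟨rfl, rfl⟩

theorem Y_aperiodic : Aperiodic Y := by
  rintro ⟨N, p, hp, h⟩
  have h' : ∀ n, N ≤ n → y (n + p) = y n := fun n hn => (Y_eq_iff _ _).1 (h n hn)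
  clear h
  induction p using Nat.strong_induction_on generalizing N with
  | _ p ih =>
    have h0 := ((y_eq_iff _ _).1 (h' N le_rfl)).1
    obtain ⟨r, rfl⟩ : ∃ r, p = 2 * r := ⟨p / 2, by omega⟩
    apply ih r (by omega) N (by omega)
    intro n hn
    have e1 := h' (2 * n) (by omega)
    have e2 := h' (2 * n + 1) (by omega)
    rw [show 2 * n + 2 * r = 2 * (n + r) by ring, y_even, y_even] at e1
    rw [show 2 * n + 1 + 2 * r = 2 * (n + r) + 1 by ring, y_odd, y_odd] at e2
    rw [y_eq_iff]
    omega

theorem Y_cl (J : ℕ) : cl Y (2 ^ (J + 1)) = 0 := by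
  unfold cl
  rw [Set.encard_eq_zero, Set.eq_empty_iff_forall_notMem]
  rintro w ⟨⟨i, rfl⟩, hc⟩
  have hpos : 0 < 2 ^ J := by positivity
  have h2 : 2 ≤ 2 ^ (J + 1) := by
    rw [pow_succ]
    omega
  obtain ⟨k, hk, h3, h4⟩ := closed_factor h2 hc
  have hk0 : 0 < k := by
    by_contra hcon
    obtain ⟨j, hj, _⟩ := h4 1 (by norm_num) (by omega)
    omega
  apply no_ret (J + 1) k (2 ^ (J + 1) - k) hk0 (by omega) (by omega)
  refine ⟨i, fun t ht => (Y_eq_iff _ _).1 (h3 t ht), fun s hs hsd => ?_⟩
  obtain ⟨t, ht, hne⟩ := h4 s hs hsd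
  exact ⟨t, ht, fun he => hne ((Y_eq_iff _ _).2 he)⟩

/-! ### The case `k ≥ 1`

For a parameter `k` (so that the lim inf will be `k + 1`) put `M = 5 k + 6`.  The word is the fixed
point of `0 ↦ 0 1⁴ 0 2⁴ 0 ⋯ 0 (k+1)⁴ 0`, `b ↦ b^M` (`1 ≤ b ≤ k + 1`). -/

/-- The letters of the image of `0`. -/
def g (d : ℕ) : ℕ := if d % 5 = 0 then 0 else d / 5 + 1

/-- The word. -/
def xn (k : ℕ) (q : ℕ) : ℕ :=
  if q = 0 then 0 else
    if xn k (q / (5 * k + 6)) = 0 then g (q % (5 * k + 6)) else xn k (q / (5 * k + 6))
termination_by q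
decreasing_by all_goals exact Nat.div_lt_self (by omega) (by omega)

theorem xn_zero (k : ℕ) : xn k 0 = 0 := by
  rw [xn]
  simp

theorem xn_rec (k q : ℕ) : xn k q =
    if xn k (q / (5 * k + 6)) = 0 then g (q % (5 * k + 6)) else xn k (q / (5 * k + 6)) := by
  rcases Nat.eq_zero_or_pos q with h | h
  · subst h
    simp [xn_zero, g]
  · conv_lhs => rw [xn]
    rw [if_neg (by omega)]

theorem level (k j : ℕ) : ∀ Q R, R < (5 * k + 6) ^ j →
    xn k (Q * (5 * k + 6) ^ j + R) = if xn k Q = 0 then xn k R else xn k Q := by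
  induction j with
  | zero =>
    intro Q R hR
    rw [pow_zero] at hR ⊢
    have : R = 0 := by omega
    subst this
    rw [xn_zero]
    split_ifs with h
    · simpa using h
    · simp
  | succ j ih =>
    intro Q R hR
    set M := 5 * k + 6 with hM
    have hMpos : 0 < M := by omega
    have e1 : (Q * M ^ (j + 1) + R) / M = Q * M ^ j + R / M := by
      rw [pow_succ, show Q * (M ^ j * M) + R = R + M * (Q * M ^ j) by ring,
        Nat.add_mul_div_left _ _ hMpos]
      ring
    have e2 : (Q * M ^ (j + 1) + R) % M = R % M := by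
      rw [pow_succ, show Q * (M ^ j * M) + R = R + M * (Q * M ^ j) by ring,
        Nat.add_mul_mod_self_left]
    have e3 : R / M < M ^ j := by
      rw [Nat.div_lt_iff_lt_mul hMpos, ← pow_succ]
      exact hR
    rw [xn_rec k (Q * M ^ (j + 1) + R), ← hM, e1, e2, ih Q (R / M) e3]
    by_cases h : xn k Q = 0
    · rw [if_pos h, if_pos h, xn_rec k R, ← hM]
    · rw [if_neg h, if_neg h, if_neg h]

theorem xn_div {k j z : ℕ} (h : xn k (z / (5 * k + 6) ^ j) ≠ 0) :
    xn k z = xn k (z / (5 * k + 6) ^ j) := by
  have hpos : 0 < (5 * k + 6) ^ j := by positivity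
  have e := level k j (z / (5 * k + 6) ^ j) (z % (5 * k + 6) ^ j) (Nat.mod_lt _ hpos)
  rw [if_neg h, mul_comm, Nat.div_add_mod] at e
  exact e

theorem zero_mod (k : ℕ) : ∀ Q, xn k Q = 0 → Q % 5 = 0 := by
  intro Q
  induction Q using Nat.strong_induction_on with
  | _ Q ih =>
    intro h
    rcases Nat.eq_zero_or_pos Q with h0 | hpos
    · rw [h0]
    · rw [xn_rec] at h
      have hlt : Q / (5 * k + 6) < Q := Nat.div_lt_self hpos (by omega)
      by_cases h1 : xn k (Q / (5 * k + 6)) = 0
      · rw [if_pos h1] at h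
        have h2 := ih _ hlt h1
        have h3 : (Q % (5 * k + 6)) % 5 = 0 := by
          unfold g at h
          by_contra hcon
          rw [if_neg hcon] at h
          omega
        have h4 := Nat.div_add_mod Q (5 * k + 6)
        obtain ⟨a, ha⟩ : ∃ a, Q / (5 * k + 6) = 5 * a := ⟨Q / (5 * k + 6) / 5, by omega⟩
        rw [ha] at h4
        have h5 : (5 * k + 6) * (5 * a) = 5 * ((5 * k + 6) * a) := by ring
        omega
      · rw [if_neg h1] at h
        exact absurd h h1

theorem next_eq (k : ℕ) : ∀ Q, xn k Q ≠ 0 → xn k (Q + 1) ≠ 0 → xn k Q = xn k (Q + 1) := by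
  intro Q
  induction Q using Nat.strong_induction_on with
  | _ Q ih =>
    intro h1 h2
    set M := 5 * k + 6 with hM
    have hMpos : 0 < M := by omega
    have hr := Nat.mod_lt Q hMpos
    have hdm := Nat.div_add_mod Q M
    rcases Nat.lt_or_ge (Q % M + 1) M with hlt | hge
    · have e1 : (Q + 1) / M = Q / M := by
        rw [show Q + 1 = (Q % M + 1) + M * (Q / M) by omega, Nat.add_mul_div_left _ _ hMpos,
          Nat.div_eq_of_lt hlt]
        omega
      have e2 : (Q + 1) % M = Q % M + 1 := by
        rw [show Q + 1 = (Q % M + 1) + M * (Q / M) by omega, Nat.add_mul_mod_self_left,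
          Nat.mod_eq_of_lt hlt]
      rw [xn_rec k Q, ← hM] at h1 ⊢
      rw [xn_rec k (Q + 1), ← hM, e1, e2] at h2 ⊢
      by_cases h : xn k (Q / M) = 0
      · rw [if_pos h] at h1 h2 ⊢
        rw [if_pos h]
        unfold g at *
        split_ifs at * <;> omega
      · rw [if_neg h, if_neg h]
    · have hr' : Q % M = 5 * k + 5 := by omega
      have e1 : (Q + 1) / M = Q / M + 1 := by
        rw [show Q + 1 = M * (Q / M + 1) by rw [Nat.mul_add]; omega,
          Nat.mul_div_cancel_left _ hMpos]
      have e2 : (Q + 1) % M = 0 := by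
        rw [show Q + 1 = M * (Q / M + 1) by rw [Nat.mul_add]; omega, Nat.mul_mod_right]
      have h3 : xn k (Q / M) ≠ 0 := by
        intro h
        apply h1
        rw [xn_rec k Q, ← hM, if_pos h, hr']
        unfold g
        rw [if_pos (by omega)]
      have h4 : xn k (Q / M + 1) ≠ 0 := by
        intro h
        apply h2
        rw [xn_rec k (Q + 1), ← hM, e1, if_pos h, e2]
        rfl
      have hlt : Q / M < Q := Nat.div_lt_self (by
        rcases Nat.eq_zero_or_pos Q with h0 | h0
        · rw [h0, Nat.zero_mod] at hr'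
          omega
        · exact h0) (by omega)
      rw [xn_rec k Q, ← hM, if_neg h3, xn_rec k (Q + 1), ← hM, e1, if_neg h4]
      exact ih _ hlt h3 h4

theorem chain_eq (k : ℕ) (a : ℕ) : ∀ b, a ≤ b → (∀ i, a ≤ i → i ≤ b → xn k i ≠ 0) →
    xn k a = xn k b := by
  intro b
  induction b with
  | zero =>
    intro hab _
    have : a = 0 := by omega
    rw [this]
  | succ b ih =>
    intro hab h
    rcases Nat.lt_or_ge a (b + 1) with h1 | h1
    · rw [ih (by omega) (fun i h2 h3 => h i h2 (by omega))]
      exact next_eq k b (h b (by omega) (by omega)) (h (b + 1) hab le_rfl)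
    · have : a = b + 1 := by omega
      rw [this]

theorem xn_le (k : ℕ) : ∀ q, xn k q ≤ k + 1 := by
  intro q
  induction q using Nat.strong_induction_on with
  | _ q ih =>
    rcases Nat.eq_zero_or_pos q with h | h
    · rw [h, xn_zero]
      omega
    · have hlt : q / (5 * k + 6) < q := Nat.div_lt_self h (by omega)
      rw [xn_rec]
      split_ifs with h1
      · have := Nat.mod_lt q (show 0 < 5 * k + 6 by omega)
        unfold g
        split_ifs <;> omega
      · exact ih _ hlt

theorem last_zero (k j : ℕ) : xn k ((5 * k + 6) ^ j - 1) = 0 := by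
  induction j with
  | zero => simp [xn_zero]
  | succ j ih =>
    set M := 5 * k + 6 with hM
    have hMpos : 0 < M := by omega
    have hpos : 0 < M ^ j := by positivity
    have e : M ^ (j + 1) - 1 = (M - 1) + M * (M ^ j - 1) := by
      have h1 : M * (M ^ j - 1) + M = M ^ (j + 1) := by
        rw [pow_succ, mul_comm (M ^ j) M]
        conv_rhs => rw [show M ^ j = (M ^ j - 1) + 1 by omega]
        ring
      omega
    rw [xn_rec, ← hM, e, Nat.add_mul_div_left _ _ hMpos, Nat.add_mul_mod_self_left,
      Nat.mod_eq_of_lt (by omega), Nat.div_eq_of_lt (by omega), Nat.zero_add, ih, if_pos rfl]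
    unfold g
    rw [if_pos (by omega)]

/-- Structure of short windows at level `j`. -/
theorem window (k j p n : ℕ) (hn : n ≤ 4 * (5 * k + 6) ^ j) (hn0 : 0 < n) :
    (∃ c, c ≠ 0 ∧ ∀ z, p ≤ z → z < p + n → xn k z = c) ∨
    ∃ Q, xn k Q = 0 ∧ Q * (5 * k + 6) ^ j < p + n ∧ p < (Q + 1) * (5 * k + 6) ^ j ∧
      (∃ c, c ≠ 0 ∧ ∀ z, p ≤ z → z < Q * (5 * k + 6) ^ j → xn k z = c) ∧
      (∃ c, c ≠ 0 ∧ ∀ z, (Q + 1) * (5 * k + 6) ^ j ≤ z → z < p + n → xn k z = c) := by
  set B := (5 * k + 6) ^ j with hB
  have hBpos : 0 < B := by positivity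
  have hdivB : ∀ z Q, Q * B ≤ z → z < (Q + 1) * B → z / B = Q := by
    intro z Q h1 h2
    apply Nat.div_eq_of_lt_le h1 h2
  have hlo : ∀ z, z / B * B ≤ z := fun z => Nat.div_mul_le_self z B
  have hhi : ∀ z, z < (z / B + 1) * B := fun z => by
    have := Nat.lt_div_mul_add hBpos (a := z)
    rw [Nat.add_mul, Nat.one_mul]
    exact this
  have hmono : ∀ z z', z ≤ z' → z / B ≤ z' / B := fun z z' h => Nat.div_le_div_right h
  have hspan : (p + n - 1) / B ≤ p / B + 4 := by
    rw [Nat.div_le_iff_le_mul_add_pred hBpos]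
    have := hhi p
    have e : (p / B + 1) * B = B * (p / B) + B := by ring
    have e2 : B * (p / B + 4) = B * (p / B) + 4 * B := by ring
    omega
  -- constant pieces
  have hconst : ∀ lo hi : ℕ, lo < hi → (∀ i, lo / B ≤ i → i ≤ (hi - 1) / B → xn k i ≠ 0) →
      ∃ c, c ≠ 0 ∧ ∀ z, lo ≤ z → z < hi → xn k z = c := by
    intro lo hi hlt h
    refine ⟨xn k (lo / B), h _ le_rfl (hmono _ _ (by omega)), fun z h1 h2 => ?_⟩
    have h3 : xn k (z / B) ≠ 0 := h _ (hmono _ _ h1) (hmono _ _ (by omega))
    rw [xn_div h3]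
    symm
    apply chain_eq k _ _ (hmono _ _ h1)
    intro i h4 h5
    exact h i h4 (h5.trans (hmono _ _ (by omega)))
  by_cases hall : ∀ i, p / B ≤ i → i ≤ (p + n - 1) / B → xn k i ≠ 0
  · left
    exact hconst p (p + n) (by omega) hall
  · right
    push Not at hall
    obtain ⟨Q, hQ1, hQ2, hQ0⟩ := hall
    have hQ5 := zero_mod k Q hQ0
    have huniq : ∀ i, p / B ≤ i → i ≤ (p + n - 1) / B → i ≠ Q → xn k i ≠ 0 := by
      intro i h1 h2 h3 h4
      have := zero_mod k i h4
      omega
    have hA : Q * B < p + n := by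
      have h1 : Q * B ≤ (p + n - 1) / B * B := Nat.mul_le_mul_right _ hQ2
      have h2 := hlo (p + n - 1)
      omega
    have hC : p < (Q + 1) * B := by
      have h1 : (p / B + 1) * B ≤ (Q + 1) * B := Nat.mul_le_mul_right _ (by omega)
      have h2 := hhi p
      omega
    refine ⟨Q, hQ0, hA, hC, ?_, ?_⟩
    · rcases Nat.lt_or_ge p (Q * B) with h | h
      · apply hconst p (Q * B) h
        intro i h1 h2
        have h3 : i < Q := by
          have h4 : (Q * B - 1) / B < Q := by
            rw [Nat.div_lt_iff_lt_mul hBpos]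
            omega
          omega
        exact huniq i h1 (by omega) (by omega)
      · exact ⟨1, by norm_num, fun z h1 h2 => by omega⟩
    · rcases Nat.lt_or_ge ((Q + 1) * B) (p + n) with h | h
      · apply hconst ((Q + 1) * B) (p + n) h
        intro i h1 h2
        rw [Nat.mul_div_cancel _ hBpos] at h1
        exact huniq i (by omega) h2 (by omega)
      · exact ⟨1, by norm_num, fun z h1 h2 => by omega⟩

/-- Inside a block of level `j + 1`, every long enough window contains the letter `0`. -/
theorem inner (k j Q z : ℕ) (hQ : xn k Q = 0) (h1 : Q * (5 * k + 6) ^ (j + 1) ≤ z)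
    (h2 : z < (Q + 1) * (5 * k + 6) ^ (j + 1)) :
    ∃ t, t ≤ 4 * (5 * k + 6) ^ j ∧ xn k (z + t) = 0 := by
  set M := 5 * k + 6 with hM
  set B := M ^ j with hB
  have hMpos : 0 < M := by omega
  have hBpos : 0 < B := by positivity
  have hl := level k j
  rw [← hM, ← hB] at hl
  have hu1 : Q * M ≤ z / B := by
    rw [Nat.le_div_iff_mul_le hBpos]
    calc Q * M * B = Q * M ^ (j + 1) := by rw [pow_succ, hB]; ring
      _ ≤ z := h1
  have hu2 : z / B < Q * M + M := by
    rw [Nat.div_lt_iff_lt_mul hBpos]
    calc z < (Q + 1) * M ^ (j + 1) := h2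
      _ = (Q * M + M) * B := by rw [pow_succ, hB]; ring
  obtain ⟨d, hd, hdM⟩ : ∃ d, z / B = Q * M + d ∧ d < M := ⟨z / B - Q * M, by omega, by omega⟩
  have hx : ∀ e, e < M → xn k (Q * M + e) = g e := by
    intro e he
    rw [xn_rec, ← hM, show Q * M + e = e + M * Q by ring, Nat.add_mul_div_left _ _ hMpos,
      Nat.add_mul_mod_self_left, Nat.div_eq_of_lt he, Nat.zero_add, if_pos hQ,
      Nat.mod_eq_of_lt he]
  have hlo : z / B * B ≤ z := Nat.div_mul_le_self z B
  have hhi : z < z / B * B + B := Nat.lt_div_mul_add hBpos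
  by_cases h5 : d % 5 = 0
  · refine ⟨z / B * B + (B - 1) - z, by omega, ?_⟩
    rw [show z + (z / B * B + (B - 1) - z) = z / B * B + (B - 1) by omega,
      hl (z / B) (B - 1) (by omega), hd, hx d hdM]
    have : g d = 0 := by
      unfold g
      rw [if_pos h5]
    rw [if_pos this]
    exact last_zero k j
  · have hd' : 5 * (d / 5 + 1) < M := by omega
    have hle : (Q * M + 5 * (d / 5 + 1)) * B ≤ z / B * B + 4 * B := by
      rw [hd, ← Nat.add_mul]
      apply Nat.mul_le_mul_right
      omega
    have hge : z / B * B + B ≤ (Q * M + 5 * (d / 5 + 1)) * B := by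
      rw [hd]
      have : (Q * M + d) * B + B = (Q * M + d + 1) * B := by ring
      rw [this]
      apply Nat.mul_le_mul_right
      omega
    refine ⟨(Q * M + 5 * (d / 5 + 1)) * B - z, by omega, ?_⟩
    rw [show z + ((Q * M + 5 * (d / 5 + 1)) * B - z) = (Q * M + 5 * (d / 5 + 1)) * B + 0 by omega,
      hl (Q * M + 5 * (d / 5 + 1)) 0 hBpos, hx _ hd']
    have : g (5 * (d / 5 + 1)) = 0 := by
      unfold g
      rw [if_pos (by omega)]
    rw [if_pos this, xn_zero]

/-- The combinatorial core: a window which meets a block `[S, E)` of zeros-rich structure and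
otherwise consists of two constant pieces is not closed. -/
theorem core (f : ℕ → ℕ) (p n S E m c c' v : ℕ) (hSE : S < E) (hE : f (E - 1) = 0)
    (hS : f S = 0) (hin : ∀ z, S ≤ z → z < E → ∃ t, t ≤ m ∧ f (z + t) = 0)
    (hc : c ≠ 0) (hc' : c' ≠ 0) (hSn : S < p + n) (hpE : p < E)
    (hl : ∀ z, p ≤ z → z < S → f z = c) (hr : ∀ z, E ≤ z → z < p + n → f z = c')
    (hn : n = (E - S) + 2 * m + 1) (hv : v < n)
    (hb : ∀ t, t < v → f (p + t) = f (p + (n - v) + t))
    (ho : ∀ s, 0 < s → s < n - v → ∃ t, t < v ∧ f (p + s + t) ≠ f (p + t)) : False := by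
  -- case distinction on which side is longer
  rcases Nat.lt_or_ge (p + n + p) (S + E) with hside | hside
  · -- left side longer: `p + n - E < S - p`
    have hlm : m < S - p := by omega
    have hpS : p < S := by omega
    rcases Nat.lt_trichotomy v (S - p) with h | h | h
    · obtain ⟨t, ht, hne⟩ := ho 1 (by norm_num) (by omega)
      apply hne
      rw [hl (p + 1 + t) (by omega) (by omega), hl (p + t) (by omega) (by omega)]
    · -- `v = S - p`
      rcases Nat.lt_or_ge (p + n) E with h1 | h1
      · rcases Nat.lt_or_ge S (p + n - v) with h2 | h2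
        · obtain ⟨t, ht, hz⟩ := hin (p + n - v) (by omega) (by omega)
          have e := hb t (by omega)
          rw [hl (p + t) (by omega) (by omega), show p + (n - v) + t = p + n - v + t by omega,
            hz] at e
          exact hc e
        · have e := hb (S - (p + n - v)) (by omega)
          rw [hl (p + (S - (p + n - v))) (by omega) (by omega),
            show p + (n - v) + (S - (p + n - v)) = S by omega, hS] at e
          exact hc e
      · have e := hb (E - 1 - (p + n - v)) (by omega)
        rw [hl (p + (E - 1 - (p + n - v))) (by omega) (by omega),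
          show p + (n - v) + (E - 1 - (p + n - v)) = E - 1 by omega, hE] at e
        exact hc e
    · -- `v > S - p`
      have e0 := hb (S - p) (by omega)
      rw [show p + (S - p) = S by omega, hS,
        show p + (n - v) + (S - p) = S + (n - v) by omega] at e0
      rcases Nat.lt_or_ge (S + (n - v)) E with h1 | h1
      · rcases Nat.lt_or_ge (S + (n - v)) (S + (S - p) + 1) with h2 | h2
        · have e := hb (S - p - (n - v)) (by omega)
          rw [hl (p + (S - p - (n - v))) (by omega) (by omega),
            show p + (n - v) + (S - p - (n - v)) = S by omega, hS] at e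
          exact hc e
        · obtain ⟨t, ht, hz⟩ := hin (p + (n - v)) (by omega) (by omega)
          have e := hb t (by omega)
          rw [hl (p + t) (by omega) (by omega), hz] at e
          exact hc e
      · rw [hr (S + (n - v)) h1 (by omega)] at e0
        exact hc' e0.symm
  · -- right side longer
    have hrm : m < p + n - E := by omega
    rcases Nat.lt_trichotomy v (p + n - E) with h | h | h
    · obtain ⟨t, ht, hne⟩ := ho (n - v - 1) (by omega) (by omega)
      apply hne
      rw [hb t ht, hr (p + (n - v - 1) + t) (by omega) (by omega),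
        hr (p + (n - v) + t) (by omega) (by omega)]
    · -- `v = p + n - E`
      rcases Nat.lt_or_ge S p with h1 | h1
      · rcases Nat.lt_or_ge (p + v) E with h2 | h2
        · obtain ⟨t, ht, hz⟩ := hin p (by omega) (by omega)
          have e := hb t (by omega)
          rw [hz, hr (p + (n - v) + t) (by omega) (by omega)] at e
          exact hc' e.symm
        · have e := hb (E - 1 - p) (by omega)
          rw [show p + (E - 1 - p) = E - 1 by omega, hE,
            hr (p + (n - v) + (E - 1 - p)) (by omega) (by omega)] at e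
          exact hc' e.symm
      · have e := hb (S - p) (by omega)
        rw [show p + (S - p) = S by omega, hS,
          hr (p + (n - v) + (S - p)) (by omega) (by omega)] at e
        exact hc' e.symm
    · -- `v > p + n - E`
      have e0 := hb (E - 1 - (p + (n - v))) (by omega)
      rw [show p + (n - v) + (E - 1 - (p + (n - v))) = E - 1 by omega, hE] at e0
      rcases Nat.lt_or_ge (E - 1 - (n - v)) S with h1 | h1
      · rw [hl (p + (E - 1 - (p + (n - v)))) (by omega) (by omega)] at e0
        exact hc e0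
      · rcases Nat.lt_or_ge (E - 1 - (n - v) + (p + n - E)) (E - 1) with h2 | h2
        · obtain ⟨t, ht, hz⟩ := hin (E - 1 - (n - v) + 1) (by omega) (by omega)
          have e := hb (E - 1 - (n - v) + 1 + t - p) (by omega)
          rw [show p + (E - 1 - (n - v) + 1 + t - p) = E - 1 - (n - v) + 1 + t by omega, hz,
            hr (p + (n - v) + (E - 1 - (n - v) + 1 + t - p)) (by omega) (by omega)] at e
          exact hc' e.symm
        · have e := hb (E - 1 - p) (by omega)
          rw [show p + (E - 1 - p) = E - 1 by omega, hE,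
            hr (p + (n - v) + (E - 1 - p)) (by omega) (by omega)] at e
          exact hc' e.symm

/-- The word over the alphabet `{0, …, k + 1}`. -/
def X (k : ℕ) (q : ℕ) : Fin (k + 2) := ⟨xn k q, by have := xn_le k q; omega⟩

theorem X_eq_iff (k i j : ℕ) : X k i = X k j ↔ xn k i = xn k j := by
  unfold X
  exact Fin.mk.injEq _ _ _ _ ▸ Iff.rfl

/-- The closed factors of `X k` of length `(5k+6)^(j+1) + 8 (5k+6)^j + 1` are constant. -/
theorem X_closed (k j i : ℕ)
    (h : Closed (factor (X k) i ((5 * k + 6) ^ (j + 1) + 8 * (5 * k + 6) ^ j + 1))) :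
    ∃ c : Fin (k + 1), factor (X k) i ((5 * k + 6) ^ (j + 1) + 8 * (5 * k + 6) ^ j + 1) =
      List.replicate ((5 * k + 6) ^ (j + 1) + 8 * (5 * k + 6) ^ j + 1) c.succ := by
  set n := (5 * k + 6) ^ (j + 1) + 8 * (5 * k + 6) ^ j + 1 with hn
  have hpos : 0 < (5 * k + 6) ^ j := by positivity
  have hpow : (5 * k + 6) ^ (j + 1) = (5 * k) * (5 * k + 6) ^ j + 6 * (5 * k + 6) ^ j := by
    rw [pow_succ]
    ring
  obtain ⟨v, hv, hb, ho⟩ := closed_factor (by omega) h
  rcases window k (j + 1) i n (by omega) (by omega) with ⟨c, hc, hz⟩ | ⟨Q, hQ, h1, h2, ⟨c, hc, hl⟩, ⟨c', hc', hr⟩⟩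
  · have hcle : c ≤ k + 1 := by
      rw [← hz i le_rfl (by omega)]
      exact xn_le k i
    refine ⟨⟨c - 1, by omega⟩, ?_⟩
    rw [List.eq_replicate_iff]
    refine ⟨factor_length _ _ _, ?_⟩
    intro b hb'
    unfold factor at hb'
    simp only [List.mem_map, List.mem_range] at hb'
    obtain ⟨t, ht, rfl⟩ := hb'
    apply Fin.ext
    rw [Fin.val_succ]
    show xn k (i + t) = c - 1 + 1
    rw [hz (i + t) (by omega) (by omega)]
    omega
  · exfalso
    have hSE : (Q + 1) * (5 * k + 6) ^ (j + 1) = Q * (5 * k + 6) ^ (j + 1) + (5 * k + 6) ^ (j + 1) := by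
      ring
    have hl2 := level k (j + 1) Q
    apply core (xn k) i n (Q * (5 * k + 6) ^ (j + 1)) ((Q + 1) * (5 * k + 6) ^ (j + 1))
      (4 * (5 * k + 6) ^ j) c c' v (by omega) ?_ ?_ (fun z h3 h4 => inner k j Q z hQ h3 h4) hc hc'
      h1 h2 hl hr (by omega) hv (fun t ht => (X_eq_iff k _ _).1 (hb t ht))
      (fun s h3 h4 => ?_)
    · have e := hl2 ((5 * k + 6) ^ (j + 1) - 1) (by omega)
      rw [if_pos hQ, last_zero] at e
      rw [← e]
      congr 1
      omega
    · have e := hl2 0 (by omega)
      rw [if_pos hQ, xn_zero, Nat.add_zero] at e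
      exact e
    · obtain ⟨t, ht, hne⟩ := ho s h3 h4
      exact ⟨t, ht, fun he => hne ((X_eq_iff k _ _).2 he)⟩

theorem X_pureMorphic (k : ℕ) : PureMorphic (X k) := by
  apply pureMorphic_of_uniform (X k)
    (fun a => if a = 0 then factor (X k) 0 (5 * k + 6) else List.replicate (5 * k + 6) a)
    (5 * k + 6) (by omega)
  intro q
  have hpos : 0 < 5 * k + 6 := by omega
  have hdiv : ∀ d, d < 5 * k + 6 → ((5 * k + 6) * q + d) / (5 * k + 6) = q := by
    intro d hd
    rw [Nat.mul_add_div hpos, Nat.div_eq_of_lt hd, Nat.add_zero]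
  have hmod : ∀ d, d < 5 * k + 6 → ((5 * k + 6) * q + d) % (5 * k + 6) = d := by
    intro d hd
    rw [Nat.mul_add_mod, Nat.mod_eq_of_lt hd]
  by_cases h : X k q = 0
  · rw [if_pos h]
    have h' : xn k q = 0 := congrArg Fin.val h
    unfold factor
    apply List.map_congr_left
    intro d hd
    rw [List.mem_range] at hd
    rw [X_eq_iff, Nat.zero_add, xn_rec k ((5 * k + 6) * q + d), hdiv d hd, hmod d hd, if_pos h',
      xn_rec k d, Nat.div_eq_of_lt hd, xn_zero, if_pos rfl, Nat.mod_eq_of_lt hd]
  · rw [if_neg h]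
    have h' : xn k q ≠ 0 := fun he => h (Fin.ext he)
    symm
    rw [List.eq_replicate_iff]
    refine ⟨factor_length _ _ _, ?_⟩
    intro b hb
    unfold factor at hb
    simp only [List.mem_map, List.mem_range] at hb
    obtain ⟨d, hd, rfl⟩ := hb
    rw [X_eq_iff, xn_rec k ((5 * k + 6) * q + d), hdiv d hd, if_neg h']

/-- Long runs of each nonzero letter. -/
theorem X_run (k : ℕ) (c : Fin (k + 1)) (n : ℕ) :
    ∃ i, factor (X k) i n = List.replicate n c.succ := by
  have hc := c.isLt
  have hx : xn k (5 * c.1 + 1) = c.1 + 1 := by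
    rw [xn_rec, Nat.div_eq_of_lt (by omega), xn_zero, if_pos rfl, Nat.mod_eq_of_lt (by omega)]
    unfold g
    rw [if_neg (by omega)]
    omega
  refine ⟨(5 * c.1 + 1) * (5 * k + 6) ^ n, ?_⟩
  rw [List.eq_replicate_iff]
  refine ⟨factor_length _ _ _, ?_⟩
  intro b hb
  unfold factor at hb
  simp only [List.mem_map, List.mem_range] at hb
  obtain ⟨t, ht, rfl⟩ := hb
  have hlt : t < (5 * k + 6) ^ n := lt_trans ht (Nat.lt_pow_self (by omega))
  apply Fin.ext
  show xn k _ = _
  rw [level k n (5 * c.1 + 1) t hlt, hx, if_neg (by omega), Fin.val_succ]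

theorem X_aperiodic (k : ℕ) : Aperiodic (X k) := by
  rintro ⟨N, p, hp, h⟩
  have hlt : N + p < (5 * k + 6) ^ (N + p) := Nat.lt_pow_self (by omega)
  set B := (5 * k + 6) ^ (N + p) with hB
  have hl := level k (N + p)
  rw [← hB] at hl
  have h5 : xn k 5 = 0 := by
    rw [xn_rec, Nat.div_eq_of_lt (by omega), xn_zero, if_pos rfl, Nat.mod_eq_of_lt (by omega)]
    rfl
  have h4 : xn k 4 = 1 := by
    rw [xn_rec, Nat.div_eq_of_lt (by omega), xn_zero, if_pos rfl, Nat.mod_eq_of_lt (by omega)]
    rfl
  have e1 := hl 5 0 (by omega)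
  have e2 := hl 4 (B - p) (by omega)
  rw [if_pos h5, xn_zero] at e1
  rw [if_neg (by omega), h4] at e2
  have e3 := (X_eq_iff k _ _).1 (h (4 * B + (B - p)) (by omega))
  rw [show 4 * B + (B - p) + p = 5 * B + 0 by omega, e1, e2] at e3
  omega

theorem X_cl_ge (k n : ℕ) : ((k + 1 : ℕ) : ℕ∞) ≤ cl (X k) (n + 1) := by
  unfold cl
  have hinj : Function.Injective (fun c : Fin (k + 1) => List.replicate (n + 1) c.succ) := by
    intro c c' h
    have := (List.cons.inj h).1
    exact Fin.succ_injective _ this
  calc ((k + 1 : ℕ) : ℕ∞) = (Set.range (fun c : Fin (k + 1) =>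
        List.replicate (n + 1) c.succ)).encard := by
        rw [← Set.image_univ, hinj.encard_image, Set.encard_univ, ENat.card_eq_coe_fintype_card,
          Fintype.card_fin]
    _ ≤ _ := by
        apply Set.encard_le_encard
        rintro _ ⟨c, rfl⟩
        obtain ⟨i, hi⟩ := X_run k c (n + 1)
        exact ⟨⟨i, hi.symm⟩, closed_replicate _ _⟩

theorem X_cl_le (k j : ℕ) :
    cl (X k) ((5 * k + 6) ^ (j + 1) + 8 * (5 * k + 6) ^ j + 1) ≤ ((k + 1 : ℕ) : ℕ∞) := by
  unfold cl
  calc _ ≤ (Set.range (fun c : Fin (k + 1) => List.replicate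
        ((5 * k + 6) ^ (j + 1) + 8 * (5 * k + 6) ^ j + 1) c.succ)).encard := by
        apply Set.encard_le_encard
        rintro w ⟨⟨i, rfl⟩, hc⟩
        obtain ⟨c, hc'⟩ := X_closed k j i hc
        exact ⟨c, hc'.symm⟩
    _ ≤ (Set.univ : Set (Fin (k + 1))).encard := by
        rw [← Set.image_univ]
        exact Set.encard_image_le _ _
    _ = _ := by rw [Set.encard_univ, ENat.card_eq_coe_fintype_card, Fintype.card_fin]

/-- **MP_c8d5ab_co, Q1.** For every `k ∈ ℕ` there is an aperiodic pure morphic word `x` over a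
finite alphabet whose closed complexity satisfies `lim inf cl_x(n) = k`. -/
theorem result (k : ℕ) : ∃ (m : ℕ) (x : ℕ → Fin m), Aperiodic x ∧ PureMorphic x ∧
    Filter.liminf (cl x) Filter.atTop = (k : ℕ∞) := by
  rcases Nat.eq_zero_or_pos k with h0 | hpos
  · subst h0
    refine ⟨4, Y, Y_aperiodic, Y_pureMorphic, ?_⟩
    apply le_antisymm _ (by simp)
    apply Filter.liminf_le_of_frequently_le'
    rw [Filter.frequently_atTop]
    intro N
    refine ⟨2 ^ (N + 1), ?_, ?_⟩
    · exact le_trans (Nat.lt_two_pow_self).le (Nat.pow_le_pow_right (by norm_num) (by omega))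
    · rw [Y_cl]
      rfl
  · obtain ⟨k, rfl⟩ : ∃ l, k = l + 1 := ⟨k - 1, by omega⟩
    refine ⟨k + 2, X k, X_aperiodic k, X_pureMorphic k, ?_⟩
    apply le_antisymm
    · apply Filter.liminf_le_of_frequently_le'
      rw [Filter.frequently_atTop]
      intro N
      refine ⟨(5 * k + 6) ^ (N + 1) + 8 * (5 * k + 6) ^ N + 1, ?_, X_cl_le k N⟩
      have : N + 1 < (5 * k + 6) ^ (N + 1) := Nat.lt_pow_self (by omega)
      omega
    · apply Filter.le_liminf_of_le
      · isBoundedDefault
      · rw [Filter.eventually_atTop]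
        refine ⟨1, fun n hn => ?_⟩
        obtain ⟨n, rfl⟩ : ∃ l, n = l + 1 := ⟨n - 1, by omega⟩
        exact X_cl_ge k n

end Pool.Agent.Results.MP_c8d5ab_co.LiminfClosed
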